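import Pool.Agent.Lib.MP_1c30b8_co.Transfer

/-!
# The Reiner-Tudose conjecture

The Hilbert series of the subalgebra of the rational cohomology ring of the Grassmannian generated
by the elements of degree at most `m`, for all `k`, `l` and all `m ≤ min k l`.

The definitions `GrPoly`, `grWeight`, `eGen`, `hGen`, `grRel`, `grIdeal`, `GrRing`, `grPiece`,
`grSub`, `grHilb`, `qInt`, `qFact`, `qBinom`, `qBinom'` are in
`Pool/Agent/Lib/MP_1c30b8_co/Defs.lean`.

Outline of the proof. Let `P` be the polynomial ring in `p_1, p_2, ...`, let
`a(t) = exp (- sum p_j t^j / j)`, `b(t) = 1 / a(t)` and let `I n L` be the ideal of the `a_i`,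
`i > n`, and `b_j`, `j > L`, so that `P / I k l` is the cohomology ring and the subalgebra in
question is the image of `A m = Q[p_1, ..., p_m]`.
* Multiplication by `b_L` induces an injection `P / I (n-1) L → P / I n L`.
* Using the derivations `p_j ↦ j p_{j+c}` one shows: if `f` in `A m` is congruent to `b_l^r g`
  modulo `I N l`, `r ≥ 1`, then all determinants of the matrices `p_{j + c_i}` kill `g` modulo
  `I (N-r) (l-1)`.
* Two interlocking recursions bound the Hilbert series of the annihilators of these determinants,
  which gives an upper bound for the growth of the Hilbert series when `l` grows.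
* The sum of these upper bounds over all `l` is the Hilbert series of the polynomial ring `A m`, to
  which the subalgebras are isomorphic in degrees at most `l`; hence all bounds are equalities.
-/

open Polynomial
open Pool.Agent.Lib.MP_1c30b8_co

namespace Pool.Agent.Results.MP_1c30b8_co.ReinerTudose

/-- The quotient defining `qBinom n r` is exact for `r ≤ n`. -/
theorem qBinom_mul (n r : ℕ) (h : r ≤ n) : qBinom n r * (qFact r * qFact (n - r)) = qFact n := by
  obtain ⟨c, rfl⟩ := Nat.exists_eq_add_of_le h
  rw [qBinom_eq h, Nat.add_sub_cancel_left, qb_mul_qFact]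

/-- All graded pieces of the cohomology ring are finite dimensional. -/
theorem finite_grPiece (l k d : ℕ) : FiniteDimensional ℚ (grPiece l k d) := by
  have h : grPiece l k d = (Pd d).map (Phi l k).toLinearMap := by
    ext r
    exact mem_grPiece l k
  rw [h]
  infer_instance

/-- The Reiner-Tudose conjecture: for all positive integers `k`, `l` and all `m ≤ min k l` the
Hilbert series of the subalgebra generated by the homogeneous elements of degree at most `m` is
`1 + sum_{i=1}^m q^i binom(k,i)_q binom(l,i)'_k`. -/
theorem result (k l : ℕ) (hk : 1 ≤ k) (_hl : 1 ≤ l) (m : ℕ) (hm : m ≤ min k l) :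
    grHilb l k (Subalgebra.toSubmodule (grSub l k m)) =
      ((1 + ∑ i ∈ Finset.Icc 1 m, X ^ i * qBinom k i * qBinom' l i k : ℚ[X]) : PowerSeries ℚ) := by
  obtain ⟨N, rfl⟩ := Nat.exists_eq_succ_of_ne_zero (by omega : k ≠ 0)
  rw [Nat.succ_eq_add_one, ← SS_eq m (N + 1) l hm]
  ext d
  rw [grHilb, PowerSeries.coeff_mk, finrank_piece, Polynomial.coeff_coe]
  exact hilb_P m N l d (by omega)

end Pool.Agent.Results.MP_1c30b8_co.ReinerTudose
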